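import Pool.Agent.PEN.Fin71
import Pool.Agent.E5.Al15

/-! # Hyperbolic penny graphs: at most `(29 n - 42) / 12` edges for every diameter

`e_d(n) ≤ (29 n - 42) / 12` for all `d > 0` and `n ≥ 9`. -/

set_option autoImplicit false

namespace Pool.Agent.Results.MP_45fc25_co.EdgeBound29

open UpperHalfPlane

/-- The graph on the finite set `P` of points of the hyperbolic plane (the upper half plane with
its metric of curvature -1) whose edges are the pairs of points at distance exactly `d`. -/
def minDistGraph (d : ℝ) (P : Finset ℍ) : SimpleGraph P where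
  Adj x y := x ≠ y ∧ dist (x : ℍ) (y : ℍ) = d
  symm := ⟨fun x y h => ⟨h.1.symm, by rw [dist_comm]; exact h.2⟩⟩
  loopless := ⟨fun x h => h.1 rfl⟩

/-- The numbers of edges of the minimum-distance graphs with minimum distance `d` on `n`
vertices: the points have pairwise distances at least `d`. -/
def edgeNumbers (d : ℝ) (n : ℕ) : Set ℕ :=
  {m : ℕ | ∃ P : Finset ℍ, P.card = n ∧ (∀ x ∈ P, ∀ y ∈ P, x ≠ y → d ≤ dist x y) ∧
    Nat.card (minDistGraph d P).edgeSet = m}

/-- `e_d(n)`, the largest number of edges. -/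
noncomputable def e (d : ℝ) (n : ℕ) : ℕ := sSup (edgeNumbers d n)

/-- For all real `d > 0`: `e_d(n)` is a maximum for all `n`, and `e_d(n) ≤ (29 n - 42) / 12` for
all `n ≥ 9`. -/
theorem result :
    ∀ d : ℝ, 0 < d → (∀ n : ℕ, IsGreatest (edgeNumbers d n) (e d n)) ∧
      ∀ n : ℕ, 9 ≤ n → (e d n : ℝ) ≤ (29 * n - 42) / 12 := by
  intro d hd
  refine ⟨fun n => PEN.eD_greatest hd n, fun n hn => ?_⟩
  have h := PEN.E5.eD_29_all15 hd hn
  have h2 : 12 * (e d n : ℝ) + 42 ≤ 29 * n := by exact_mod_cast h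
  linarith

end Pool.Agent.Results.MP_45fc25_co.EdgeBound29
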