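import Pool.Agent.PEN.Fin71

/-! # Hyperbolic penny graphs: a linear bound for every diameter

If `α(d) < 2π/k` (`k ≥ 6`; `k = 6`: every `d > 0`), then
`e_d(n) ≤ ((2k-7) n - 3(k-2)) / (k-4)` for all `n ≥ 6`. -/

set_option autoImplicit false

namespace Pool.Agent.Results.MP_45fc25_co.EdgeBoundAllDiameters

open UpperHalfPlane

/-- The angle `α(d)` of an equilateral triangle of side `d` in the hyperbolic plane:
`cos α = tanh (d/2) / tanh d`. -/
noncomputable def alpha (d : ℝ) : ℝ := Real.arccos (Real.tanh (d / 2) / Real.tanh d)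

/-- The graph on the finite set `P` of points of the hyperbolic plane (the upper half plane with
its metric of curvature -1) whose edges are the pairs of points at distance exactly `d`. -/
def minDistGraph (d : ℝ) (P : Finset ℍ) : SimpleGraph P where
  Adj x y := x ≠ y ∧ dist (x : ℍ) (y : ℍ) = d
  symm := ⟨fun x y h => ⟨h.1.symm, by rw [dist_comm]; exact h.2⟩⟩
  loopless := ⟨fun x h => h.1 rfl⟩

/-- The numbers of edges of the minimum-distance graphs with minimum distance `d` on `n`
vertices: the points have pairwise distances at least `d`. -/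
def edgeNumbers (d : ℝ) (n : ℕ) : Set ℕ :=
  {m : ℕ | ∃ P : Finset ℍ, P.card = n ∧ (∀ x ∈ P, ∀ y ∈ P, x ≠ y → d ≤ dist x y) ∧
    Nat.card (minDistGraph d P).edgeSet = m}

/-- `e_d(n)`, the largest number of edges. -/
noncomputable def e (d : ℝ) (n : ℕ) : ℕ := sSup (edgeNumbers d n)

/-- For all `d > 0`: `e_d(n)` is a maximum, `α(d) < π/3`, and for every integer `k ≥ 6` with
`α(d) < 2π/k` and all `n ≥ 6`, `e_d(n) ≤ ((2k-7) n - 3(k-2)) / (k-4)`. For every `k ≥ 6` there is
a `d` with `α(d) = 2π/(k+1)`, and there the bound is attained at `n = k + 2`, where it is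
`2(k+1)`. -/
theorem result :
    (∀ d : ℝ, 0 < d → (∀ n : ℕ, IsGreatest (edgeNumbers d n) (e d n)) ∧ alpha d < Real.pi / 3 ∧
      ∀ k n : ℕ, 6 ≤ k → alpha d < 2 * Real.pi / k → 6 ≤ n →
        (e d n : ℝ) ≤ ((2 * k - 7) * n - 3 * (k - 2)) / (k - 4)) ∧
    ∀ k : ℕ, 6 ≤ k → ∃ d : ℝ, 0 < d ∧ alpha d = 2 * Real.pi / (k + 1) ∧
      e d (k + 2) = 2 * (k + 1) := by
  constructor
  · intro d hd
    exact ⟨fun n => PEN.eD_greatest hd n, PEN.alpha_lt hd,
      fun k n hk ha hn => PEN.eD_bound_real hk hd ha hn⟩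
  · intro k hk
    obtain ⟨d, hd, ha⟩ := PEN.exists_dm (m := k + 1) (by omega)
    refine ⟨d, hd, ?_, PEN.eD_sharp hk hd ha⟩
    have h : PEN.alpha d = 2 * Real.pi / (k + 1) := by
      rw [ha]
      push_cast
      ring
    exact h

end Pool.Agent.Results.MP_45fc25_co.EdgeBoundAllDiameters
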