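import Pool.Agent.PEN.Fin71
import Pool.Agent.E6.Ub69

/-! # Hyperbolic penny graphs: a linear gap between the order-7 diameter and all other diameters
`d ≥ 0.15`

`e_d(n) ≤ (50 n - 135) / 21` for all `n ≥ 93` and `e_{d(7)}(n) - e_d(n) ≥ (n - 1332) / 1155` for all
`n ≥ 198`, for every real `d ≥ 0.15` other than the order-7 diameter `d(7) = 1.0905...`. So `d(7)` is
the only maximiser of `e_d(n)` among all `d ≥ 0.15` for every `n ≥ 1333`. -/

set_option autoImplicit false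

namespace Pool.Agent.Results.MP_45fc25_co.LinearGap

open UpperHalfPlane

/-- The angle `α(d)` of an equilateral triangle of side `d` in the hyperbolic plane:
`cos α = tanh (d/2) / tanh d`. -/
noncomputable def alpha (d : ℝ) : ℝ := Real.arccos (Real.tanh (d / 2) / Real.tanh d)

/-- The graph on the finite set `P` of points of the hyperbolic plane (the upper half plane with
its metric of curvature -1) whose edges are the pairs of points at distance exactly `d`. -/
def minDistGraph (d : ℝ) (P : Finset ℍ) : SimpleGraph P where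
  Adj x y := x ≠ y ∧ dist (x : ℍ) (y : ℍ) = d
  symm := ⟨fun x y h => ⟨h.1.symm, by rw [dist_comm]; exact h.2⟩⟩
  loopless := ⟨fun x h => h.1 rfl⟩

/-- The numbers of edges of the minimum-distance graphs with minimum distance `d` on `n`
vertices: the points have pairwise distances at least `d`. -/
def edgeNumbers (d : ℝ) (n : ℕ) : Set ℕ :=
  {m : ℕ | ∃ P : Finset ℍ, P.card = n ∧ (∀ x ∈ P, ∀ y ∈ P, x ≠ y → d ≤ dist x y) ∧
    Nat.card (minDistGraph d P).edgeSet = m}

/-- `e_d(n)`, the largest number of edges. -/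
noncomputable def e (d : ℝ) (n : ℕ) : ℕ := sSup (edgeNumbers d n)

/-- `e_d(n)` is a maximum for all `d > 0` and `n`; there is exactly one `d7 > 0` with
`α(d7) = 2π/7`; and for every real `d ≥ 0.15` with `d ≠ d7`: `e_d(n) ≤ (50 n - 135) / 21` for all
`n ≥ 93`, `e_{d7}(n) - e_d(n) ≥ (n - 1332) / 1155` for all `n ≥ 198`, and so `e_d(n) < e_{d7}(n)` for
all `n ≥ 1333`. -/
theorem result :
    (∀ (d : ℝ) (n : ℕ), 0 < d → IsGreatest (edgeNumbers d n) (e d n)) ∧
    ∃ d7 : ℝ, 0 < d7 ∧ alpha d7 = 2 * Real.pi / 7 ∧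
      (∀ d : ℝ, 0 < d → alpha d = 2 * Real.pi / 7 → d = d7) ∧
      ∀ d : ℝ, 3 / 20 ≤ d → d ≠ d7 →
        (∀ n : ℕ, 93 ≤ n → (e d n : ℝ) ≤ (50 * (n : ℝ) - 135) / 21) ∧
        (∀ n : ℕ, 198 ≤ n → ((n : ℝ) - 1332) / 1155 ≤ (e d7 n : ℝ) - e d n) ∧
        ∀ n : ℕ, 1333 ≤ n → e d n < e d7 n := by
  refine ⟨fun d n hd => PEN.eD_greatest hd n, ?_⟩
  obtain ⟨d7, h0, h1, h2⟩ := PEN.exists_unique_dm (m := 7) (le_refl 7)
  have h1' : PEN.alpha d7 = 2 * Real.pi / 7 := by
    rw [h1]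
    norm_num
  have hlow : ∀ n : ℕ, 198 ≤ n → 131 * n ≤ 55 * e d7 n + 417 := fun n hn =>
    PEN.eD_low69 h0 h1' hn
  have hup : ∀ d : ℝ, 3 / 20 ≤ d → d ≠ d7 → ∀ n : ℕ, 93 ≤ n → 21 * e d n + 135 ≤ 50 * n :=
    fun d hd hne n hn => PEN.eD_up69 h0 h1' hd hne hn
  refine ⟨d7, h0, h1', fun d hd h => h2 d hd ?_, fun d hd hne =>
    ⟨fun n hn => ?_, fun n hn => ?_, fun n hn => ?_⟩⟩
  · change alpha d = _
    rw [h]
    norm_num
  · have h3 : 21 * (e d n : ℝ) + 135 ≤ 50 * (n : ℝ) := by exact_mod_cast hup d hd hne n hn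
    rw [le_div_iff₀ (by norm_num)]
    linarith
  · have h3 : (131 * (n : ℝ)) ≤ 55 * (e d7 n : ℝ) + 417 := by exact_mod_cast hlow n hn
    have h4 : 21 * (e d n : ℝ) + 135 ≤ 50 * (n : ℝ) := by
      exact_mod_cast hup d hd hne n (by omega)
    rw [div_le_iff₀ (by norm_num)]
    linarith
  · have h3 := hlow n (by omega)
    have h4 := hup d hd hne n (by omega)
    omega

end Pool.Agent.Results.MP_45fc25_co.LinearGap
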